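import Mathlib
import Pool.Agent.Y855.S3

set_option autoImplicit false

/-!
# The snake polynomial is not extremal: every order `k` and all large `n`, with unbounded ratio

For every `k` there are `c > 0` and `n₀` such that for ALL `n ≥ n₀` there is a strictly positive
continuous majorant `μ` with snake polynomial `ω` of degree at most `n` and a polynomial `q` of degree
at most `n` with `|q| ≤ μ` and `‖q^(k)‖ ≥ c √n ‖ω^(k)‖`, `‖q^(k)‖ > ‖ω^(k)‖`.

Construction: `n = a + b + 1`, `ω = x W(x)`, `q = W(x) / 2`, where `W` has `a` simple zeros very close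
to `1` and `b` simple zeros very close to `-1`, `|a - b| ≤ 1`.  All the nodes can be chosen with
`|τ_i| > 1 / 2`, so that `|q(τ_i)| ≤ |ω(τ_i)|`.  Near `0` the polynomial `W` behaves like
`W(0) exp(- n x² / 2)`, so that `‖W^(k)‖` has the order `|W(0)| n^(k / 2)` and `‖(x W)^(k)‖` the order
`|W(0)| n^((k - 1) / 2)`.
-/

namespace Pool.Agent.Results.MP_01622d_an.AllOrders

open Polynomial Set
open Pool.Agent.Results.MP_01622d_an (SnakeNotExtremal.IsMajorant SnakeNotExtremal.Admissible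
  SnakeNotExtremal.IsSnake SnakeNotExtremal.supNorm)
open Pool.Agent.Y855.SN (W K)

/-- For every order `k` there are `c > 0` and `n₀ ≥ k` such that for all `n ≥ n₀` there is a strictly
positive continuous majorant `μ` on `[-1, 1]`, its snake polynomial `ω` and a polynomial `q` of degree
at most `n` with `|q| ≤ μ` on `[-1, 1]` such that the uniform norm of `q^(k)` is larger than the one of
`ω^(k)`, and even at least `c √n` times the one of `ω^(k)`. -/
theorem result (k : ℕ) : ∃ c : ℝ, 0 < c ∧ ∃ n₀ : ℕ, k ≤ n₀ ∧ ∀ n : ℕ, n₀ ≤ n →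
    ∃ (μ : ℝ → ℝ) (ω q : ℝ[X]), SnakeNotExtremal.IsMajorant μ ∧
      (∀ x ∈ Icc (-1 : ℝ) 1, 0 < μ x) ∧ SnakeNotExtremal.IsSnake n μ ω ∧
      SnakeNotExtremal.Admissible n μ q ∧
      SnakeNotExtremal.supNorm (derivative^[k] ω) < SnakeNotExtremal.supNorm (derivative^[k] q) ∧
      c * √n * SnakeNotExtremal.supNorm (derivative^[k] ω) ≤
        SnakeNotExtremal.supNorm (derivative^[k] q) := by
  have hk0 := Nat.cast_nonneg (α := ℝ) k
  set D : ℝ := 120 * Real.exp 3 * k.factorial * ((k : ℝ) + 2) ^ k with hD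
  have hD0 : 0 < D := by positivity
  refine ⟨1 / D, by positivity, max (k + 3) (max (2 * (k * (k + 2)) ^ 2 + 2) (⌈(2 * D) ^ 2⌉₊)),
    by have := le_max_left (k + 3) (max (2 * (k * (k + 2)) ^ 2 + 2) (⌈(2 * D) ^ 2⌉₊)); omega,
    fun n hn => ?_⟩
  have hn1 : k + 3 ≤ n := (le_max_left _ _).trans hn
  have hn2 : 2 * (k * (k + 2)) ^ 2 + 2 ≤ n := (le_max_left _ _).trans ((le_max_right _ _).trans hn)
  have hn3 : ⌈(2 * D) ^ 2⌉₊ ≤ n := (le_max_right _ _).trans ((le_max_right _ _).trans hn)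
  obtain ⟨m, e, he, hme⟩ : ∃ m e : ℕ, e ≤ 1 ∧ n = 2 * m + e + 1 :=
    ⟨(n - 1) / 2, (n - 1) % 2, by omega, by omega⟩
  subst hme
  have hm : 1 ≤ m := by omega
  have hm0 : (0 : ℝ) < m := by exact_mod_cast hm
  have hs : 0 < √(m : ℝ) := Real.sqrt_pos.2 hm0
  have hkm : (k : ℝ) * (k + 2) ≤ √m := by
    apply Real.le_sqrt_of_sq_le
    have : (k * (k + 2)) ^ 2 ≤ m := by omega
    exact_mod_cast this
  have hK := Pool.Agent.Y855.SN.K_pos (m := m) he
  obtain ⟨hmaj, hsnake, hadm⟩ := Pool.Agent.Y855.SN.snake m e he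
  refine ⟨Pool.Agent.Y855.SN.mu m e, X * W m e, Pool.Agent.Y855.SN.q m e, hmaj,
    fun x _ => Pool.Agent.Y855.SN.mu_pos m e he x, hsnake, hadm, ?_⟩
  set O := SnakeNotExtremal.supNorm (derivative^[k] (X * W m e)) with hO
  set A := SnakeNotExtremal.supNorm (derivative^[k] (W m e)) with hA
  have hq : A / 2 ≤ SnakeNotExtremal.supNorm (derivative^[k] (Pool.Agent.Y855.SN.q m e)) := by
    have h1 : A ≤ 2 * SnakeNotExtremal.supNorm (derivative^[k] (Pool.Agent.Y855.SN.q m e)) := by
      rw [hA]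
      apply SnakeNotExtremal.supNorm_le
      intro x hx
      have h2 := SnakeNotExtremal.le_supNorm (derivative^[k] (Pool.Agent.Y855.SN.q m e)) hx
      unfold Pool.Agent.Y855.SN.q at h2
      rw [iterate_derivative_C_mul, eval_mul, eval_C, abs_mul,
        abs_of_pos (by norm_num : (0 : ℝ) < 1 / 2)] at h2
      unfold Pool.Agent.Y855.SN.q
      rw [iterate_derivative_C_mul]
      linarith
    linarith
  have hup : O ≤ k.factorial * (K m e * (15 * Real.exp 3) / √m) * √m ^ k :=
    Pool.Agent.Y855.SN.upper m e k he hm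
  have hlow : K m e / 2 ≤ A * (((k : ℝ) + 2) / √m) ^ k := Pool.Agent.Y855.SN.lowerW m e k he hm hkm
  set B := SnakeNotExtremal.supNorm (derivative^[k] (Pool.Agent.Y855.SN.q m e)) with hB
  have hK2 : K m e ≤ 4 * B * (((k : ℝ) + 2) / √m) ^ k := by
    have h1 : A ≤ 2 * B := by linarith
    have h2 : 0 ≤ (((k : ℝ) + 2) / √m) ^ k := by positivity
    nlinarith
  have hBpos : 0 < B := by
    by_contra hcon
    push Not at hcon
    have h2 : 0 ≤ (((k : ℝ) + 2) / √m) ^ k := by positivity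
    nlinarith
  -- the main comparison
  have hmain : O ≤ (60 * Real.exp 3 * k.factorial * ((k : ℝ) + 2) ^ k) * B / √m := by
    refine hup.trans ?_
    calc (k.factorial : ℝ) * (K m e * (15 * Real.exp 3) / √m) * √m ^ k
        ≤ k.factorial * ((4 * B * (((k : ℝ) + 2) / √m) ^ k) * (15 * Real.exp 3) / √m) * √m ^ k := by
          gcongr
      _ = (60 * Real.exp 3 * k.factorial * ((k : ℝ) + 2) ^ k) * B / √m := by
          rw [div_pow]
          field_simp
          ring
  have hsn : √((2 * m + e + 1 : ℕ) : ℝ) ≤ 2 * √m := by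
    rw [Real.sqrt_le_left (by positivity), mul_pow, Real.sq_sqrt hm0.le]
    have : 2 * m + e + 1 ≤ 4 * m := by omega
    have h1 : ((2 * m + e + 1 : ℕ) : ℝ) ≤ 4 * m := by exact_mod_cast this
    linarith
  have hO0 : 0 ≤ O := by
    have h1 := SnakeNotExtremal.le_supNorm (derivative^[k] (X * W m e)) (x := 0) (by norm_num)
    exact (abs_nonneg _).trans h1
  have hfin : 1 / D * √((2 * m + e + 1 : ℕ) : ℝ) * O ≤ B := by
    have h1 : √m * O ≤ D / 2 * B := by
      have h2 : √m * O ≤ √m * ((60 * Real.exp 3 * k.factorial * ((k : ℝ) + 2) ^ k) * B / √m) := by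
        gcongr
      refine h2.trans (le_of_eq ?_)
      rw [hD]
      field_simp
      ring
    calc 1 / D * √((2 * m + e + 1 : ℕ) : ℝ) * O ≤ 1 / D * (2 * √m) * O := by gcongr
      _ = 2 / D * (√m * O) := by ring
      _ ≤ 2 / D * (D / 2 * B) := by gcongr
      _ = B := by field_simp
  refine ⟨?_, hfin⟩
  have h2 : 2 ≤ 1 / D * √((2 * m + e + 1 : ℕ) : ℝ) := by
    have h3 : 2 * D ≤ √((2 * m + e + 1 : ℕ) : ℝ) := by
      apply Real.le_sqrt_of_sq_le
      exact (Nat.le_ceil _).trans (by exact_mod_cast hn3)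
    rw [one_div, inv_mul_eq_div, le_div_iff₀ hD0]
    exact h3
  nlinarith

end Pool.Agent.Results.MP_01622d_an.AllOrders
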